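import Pool.Agent.helper56.P3.Defs2

/-!
# P3, module D1 (second half): disc families of type II cycles

`Disc.map`, `Disc.follow`, `Disc.pair`, `Disc.sep`, `Disc.cross`.
-/

namespace Pool.Agent.helper56.P3

open Finset Pool.Agent.helper56.Per

section Abs

variable {Γ : Type*} [LinearOrderedCommGroupWithZero Γ]

/-- chains of ratios -/
theorem dm_chain {A B : ℕ → Γ} (hA : ∀ l, 0 < A l) (hB : ∀ l, 0 < B l)
    (hm : ∀ l, A (l + 1) * B l ≤ B (l + 1) * A l) (l j : ℕ) :
    A (l + j) * B l ≤ B (l + j) * A l := by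
  induction j with
  | zero => exact (mul_comm _ _).le
  | succ j ih =>
    have h1 := hm (l + j)
    have h2 : A (l + j + 1) * B (l + j) * (A (l + j) * B l)
        ≤ B (l + j + 1) * A (l + j) * (B (l + j) * A l) := mul_le_mul' h1 ih
    have h3 : A (l + j + 1) * B l * (B (l + j) * A (l + j))
        ≤ B (l + j + 1) * A l * (B (l + j) * A (l + j)) := by
      calc A (l + j + 1) * B l * (B (l + j) * A (l + j))
          = A (l + j + 1) * B (l + j) * (A (l + j) * B l) := by ac_rfl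
        _ ≤ B (l + j + 1) * A (l + j) * (B (l + j) * A l) := h2
        _ = B (l + j + 1) * A l * (B (l + j) * A (l + j)) := by ac_rfl
    exact le_of_mul_le_mul_right h3 (mul_pos (hB _) (hA _))

/-- a nondecreasing periodic ratio which is squared at some step is `1` -/
theorem dm_ratio {A B : ℕ → Γ} (hA : ∀ l, 0 < A l) (hB : ∀ l, 0 < B l) {N : ℕ} (hN : 0 < N)
    (pA : ∀ l, A (l + N) = A l) (pB : ∀ l, B (l + N) = B l)
    (h0 : A 0 ≤ B 0) (hm : ∀ l, A l ≤ B l → A (l + 1) * B l ≤ B (l + 1) * A l) (l0 : ℕ)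
    (hs : B l0 ^ 2 * A (l0 + 1) ≤ B (l0 + 1) * A l0 ^ 2) : A 0 = B 0 := by
  have hle : ∀ l, A l ≤ B l := by
    intro l
    induction l with
    | zero => exact h0
    | succ l ih =>
      have h1 := hm l ih
      by_contra hcon
      have h2 : B (l + 1) < A (l + 1) := not_le.1 hcon
      have h3 : B (l + 1) * A l < A (l + 1) * B l := by
        calc B (l + 1) * A l < A (l + 1) * A l := mul_lt_mul_of_pos_right h2 (hA l)
          _ ≤ A (l + 1) * B l := mul_le_mul' le_rfl ih
      exact absurd h1 (not_le.2 h3)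
  have hm' : ∀ l, A (l + 1) * B l ≤ B (l + 1) * A l := fun l => hm l (hle l)
  have h1 : A (l0 + 1 + (N - 1)) * B (l0 + 1) ≤ B (l0 + 1 + (N - 1)) * A (l0 + 1) :=
    dm_chain hA hB hm' _ _
  rw [show l0 + 1 + (N - 1) = l0 + N by omega, pA, pB] at h1
  -- ratio at `l0` is at most one
  have h2 : B l0 ≤ A l0 := by
    have h3 : (B l0 ^ 2 * A (l0 + 1)) * (A l0 * B (l0 + 1))
        ≤ (B (l0 + 1) * A l0 ^ 2) * (B l0 * A (l0 + 1)) := mul_le_mul' hs h1
    have h4 : B l0 * (B l0 * A (l0 + 1) * A l0 * B (l0 + 1))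
        ≤ A l0 * (B l0 * A (l0 + 1) * A l0 * B (l0 + 1)) := by
      calc B l0 * (B l0 * A (l0 + 1) * A l0 * B (l0 + 1))
          = (B l0 ^ 2 * A (l0 + 1)) * (A l0 * B (l0 + 1)) := by rw [pow_two]; ac_rfl
        _ ≤ (B (l0 + 1) * A l0 ^ 2) * (B l0 * A (l0 + 1)) := h3
        _ = A l0 * (B l0 * A (l0 + 1) * A l0 * B (l0 + 1)) := by rw [pow_two]; ac_rfl
    exact le_of_mul_le_mul_right h4
      (mul_pos (mul_pos (mul_pos (hB _) (hA _)) (hA _)) (hB _))
  have h5 : A l0 = B l0 := le_antisymm (hle l0) h2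
  have h6 := dm_chain hA hB hm' 0 l0
  rw [zero_add, h5] at h6
  have h7 : B 0 ≤ A 0 := le_of_mul_le_mul_left h6 (hB l0)
  exact le_antisymm h0 h7

end Abs

section Cyc

variable {K : Type*} [Field K] {b c ε : K} {n m q : ℕ} {lam lam' : K} {W W' : ℕ → K}
variable {Γ : Type*} [LinearOrderedCommGroupWithZero Γ]

theorem dm_diff {x y s : K} (hx : x ≠ 0) (hy : y ≠ 0) :
    (x + x⁻¹ + s) / b - (y + y⁻¹ + s) / b = (x - y) * (x * y - 1) / (x * y) / b := by
  rw [← sub_div]
  congr 1
  field_simp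
  ring

theorem dm_step (h : WCyc b c n lam W) (i : ℕ) :
    W (i + 1) = (W i + (W i)⁻¹ + (b - 1 - c ^ 2) / c) / b := by
  have h0 := h.ne0 i
  have h1 := h.b0
  have h2 := h.c0
  have h3 := h.step i
  field_simp
  linear_combination h3

theorem dm_per (h : WCyc b c n lam W) (i j : ℕ) : W (i + n * j) = W i := by
  induction j with
  | zero => rw [mul_zero, add_zero]
  | succ j ih => rw [mul_add, mul_one, ← add_assoc, h.per, ih]

variable (v : Valuation K Γ)

/-- no point is smaller than `c` -/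
theorem dm_ge (hc : Ctx v b c) (h : WCyc b c n lam W) (i : ℕ) : v c ≤ v (W i) := by
  by_contra hcon
  have hi : v (W i) < v c := not_le.1 hcon
  have hcpos : 0 < v c := zero_lt_iff.2 ((Valuation.ne_zero_iff v).2 hc.c0)
  have hWpos : 0 < v (W i) := zero_lt_iff.2 ((Valuation.ne_zero_iff v).2 (h.ne0 i))
  have hb1 : v (b - 1) ≤ 1 := v.map_sub_le hc.vb.le (v.map_one).le
  have hκ : v ((b - 1 - c ^ 2) / c) ≤ (v c)⁻¹ := by
    rw [map_div₀, div_eq_mul_inv]
    have h1 : v (b - 1 - c ^ 2) ≤ 1 := by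
      refine v.map_sub_le hb1 ?_
      rw [map_pow]
      exact pow_le_one₀ zero_le hc.vc.le
    calc v (b - 1 - c ^ 2) * (v c)⁻¹ ≤ 1 * (v c)⁻¹ := mul_le_mul' h1 le_rfl
      _ = (v c)⁻¹ := one_mul _
  -- all later points have size `> 1/|c|`
  have hbig : ∀ l, (v c)⁻¹ < v (W (i + 1 + l)) := by
    intro l
    induction l with
    | zero =>
      rw [add_zero, dm_step h i, map_div₀, hc.vb, div_one]
      have h1 : (v c)⁻¹ < v (W i)⁻¹ := by
        rw [map_inv₀]
        exact (inv_lt_inv₀ hcpos hWpos).2 hi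
      have h2 : v (W i + (b - 1 - c ^ 2) / c) < v (W i)⁻¹ := by
        refine v.map_add_lt ?_ (lt_of_le_of_lt hκ h1)
        refine lt_trans (lt_trans hi ?_) h1
        exact lt_trans hc.vc ((one_lt_inv₀ hcpos).2 hc.vc)
      have h3 : W i + (W i)⁻¹ + (b - 1 - c ^ 2) / c = (W i + (b - 1 - c ^ 2) / c) + (W i)⁻¹ := by
        ring
      rw [h3, v.map_add_eq_of_lt_right h2]
      exact h1
    | succ l ih =>
      rw [show i + 1 + (l + 1) = (i + 1 + l) + 1 by ring, dm_step h, map_div₀, hc.vb, div_one]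
      set w := W (i + 1 + l) with hw
      have h0 : 1 < v w := lt_trans ((one_lt_inv₀ hcpos).2 hc.vc) ih
      have h2 : v (w⁻¹ + (b - 1 - c ^ 2) / c) < v w := by
        refine v.map_add_lt ?_ (lt_of_le_of_lt hκ ih)
        rw [map_inv₀]
        exact lt_trans (inv_lt_one_of_one_lt₀ h0) h0
      rw [add_assoc, v.map_add_eq_of_lt_left h2]
      exact ih
  have h1 := hbig (n - 1)
  rw [show i + 1 + (n - 1) = i + n by have := h.npos; omega, h.per] at h1
  exact absurd (lt_trans h1 hi) (not_lt.2 (le_trans hc.vc.le ((one_lt_inv₀ hcpos).2 hc.vc).le))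

theorem dm_e1 (he : ε ^ 2 = 1) : v ε = 1 := by
  have h1 : v ε ^ 2 = 1 := by rw [← map_pow, he, map_one]
  exact (pow_eq_one_iff_of_nonneg zero_le two_ne_zero).1 h1

/-- near a critical point -/
theorem dm_near (hz : CharZ v) (he : ε ^ 2 = 1) {x : K} (hx : v (x - ε) < 1) :
    v (x ^ 2 - 1) = v (x - ε) := by
  have h2 : v (2 : K) = 1 := by
    have := hz 2 two_ne_zero
    exact_mod_cast this
  have h1 : v (x + ε) = 1 := by
    have e : x + ε = (x - ε) + 2 * ε := by ring
    have h3 : v (2 * ε) = 1 := by rw [map_mul, h2, dm_e1 v he, one_mul]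
    rw [e, v.map_add_eq_of_lt_right (by rw [h3]; exact hx), h3]
  have e : x ^ 2 - 1 = (x - ε) * (x + ε) := by rw [← he]; ring
  rw [e, map_mul, h1, mul_one]

variable {v}

/-- the basic inequality -/
theorem Disc.key {r : ℕ → Γ} {i0 : ℕ} (T : TwoCyc v b c q n lam ε W)
    (D : Disc v c n W ε r i0) (i : ℕ) : r i * v (W i) ≤ v (W i ^ 2 - 1) ∧ r i < v (W i) := by
  have hcpos : 0 < v c := zero_lt_iff.2 ((Valuation.ne_zero_iff v).2 T.ctx.c0)
  rcases lt_trichotomy (v (W i)) 1 with hlt | heq | hgt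
  · have h1 : v (W i ^ 2 - 1) = 1 := by
      rw [Valuation.map_sub_swap, v.map_sub_eq_of_lt_left, map_one]
      rw [map_one, map_pow]
      exact pow_lt_one₀ zero_le hlt two_ne_zero
    refine ⟨?_, ?_⟩
    · rw [h1]
      exact (mul_lt_one_of_nonneg_of_lt_one_left zero_le (D.lt_one i) hlt.le).le
    · calc r i < v c ^ 2 := D.hole i hlt
        _ ≤ v c := by
          rw [pow_two]
          exact mul_le_of_le_one_left' T.ctx.vc.le
        _ ≤ v (W i) := dm_ge v T.ctx T.cyc i
  · refine ⟨?_, by rw [heq]; exact D.lt_one i⟩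
    rw [heq, mul_one]
    by_cases hn : v (W i ^ 2 - 1) < 1
    · rw [dm_near v T.cz T.e2 (T.near i heq hn)]
      exact D.near_le i heq hn
    · exact le_trans (D.lt_one i).le (not_lt.1 hn)
  · have h1 : v (W i ^ 2 - 1) = v (W i) ^ 2 := by
      rw [v.map_sub_eq_of_lt_left, map_pow]
      rw [map_one, map_pow]
      exact one_lt_pow₀ hgt two_ne_zero
    refine ⟨?_, lt_trans (D.lt_one i) hgt⟩
    rw [h1, pow_two]
    exact mul_le_mul' ((D.lt_one i).le.trans hgt.le) le_rfl

theorem Disc.key2 {r : ℕ → Γ} {i0 : ℕ} (T : TwoCyc v b c q n lam ε W)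
    (D : Disc v c n W ε r i0) {x : K} {i : ℕ} (hx : v (x - W i) ≤ r i) :
    v x = v (W i) ∧ v (x * W i - 1) ≤ v (W i ^ 2 - 1) := by
  obtain ⟨h1, h2⟩ := D.key T i
  have h3 : v x = v (W i) := by
    have e : x = (x - W i) + W i := by ring
    rw [e, v.map_add_eq_of_lt_right (lt_of_le_of_lt hx h2)]
  refine ⟨h3, ?_⟩
  have e : x * W i - 1 = (x - W i) * W i + (W i ^ 2 - 1) := by ring
  rw [e]
  refine v.map_add_le ?_ le_rfl
  rw [map_mul]
  exact le_trans (mul_le_mul' hx le_rfl) h1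

end Cyc

section D1

variable {K : Type*} [Field K] {b c ε : K} {n m q : ℕ} {lam lam' : K} {W W' : ℕ → K}
variable {Γ : Type*} [LinearOrderedCommGroupWithZero Γ]

variable (v : Valuation K Γ)

/-- points of the discs are mapped into the discs -/
theorem Disc.map {r : ℕ → Γ} {i0 : ℕ} (T : TwoCyc v b c q n lam ε W)
    (D : Disc v c n W ε r i0) {x : K} {i : ℕ} (hx : v (x - W i) ≤ r i) :
    v x = v (W i) ∧ x ≠ 0 ∧
      v ((x + x⁻¹ + (b - 1 - c ^ 2) / c) / b - W (i + 1)) ≤ r (i + 1) := by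
  obtain ⟨h1, h2⟩ := D.key2 T hx
  have hWne := T.cyc.ne0 i
  have hWpos : 0 < v (W i) := zero_lt_iff.2 ((Valuation.ne_zero_iff v).2 hWne)
  have hx0 : x ≠ 0 := by
    rintro rfl
    rw [map_zero] at h1
    exact hWpos.ne h1
  refine ⟨h1, hx0, ?_⟩
  rw [dm_step T.cyc, dm_diff hx0 hWne, map_div₀, map_div₀, T.ctx.vb, div_one, map_mul, map_mul, h1,
    ← pow_two, div_le_iff₀ (pow_pos hWpos 2), D.recr]
  exact mul_le_mul' hx h2

/-- the critical orbit follows the cycle -/
theorem Disc.follow {r : ℕ → Γ} {i0 : ℕ} (T : TwoCyc v b c q n lam ε W)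
    (D : Disc v c n W ε r i0) (l : ℕ) :
    crit b c ε l ≠ 0 ∧ v (crit b c ε l - W (i0 + l)) ≤ r (i0 + l) := by
  have h : ∀ l, v (crit b c ε l - W (i0 + l)) ≤ r (i0 + l) := by
    intro l
    induction l with
    | zero =>
      rw [add_zero, D.i0_eq, Valuation.map_sub_swap]
      exact le_rfl
    | succ l ih => exact (D.map v T ih).2.2
  exact ⟨(D.map v T (h l)).2.1, h l⟩

/-- comparison of the factors -/
theorem Disc.u_mono {r r' : ℕ → Γ} {i0 j0 : ℕ} (T : TwoCyc v b c q n lam ε W)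
    (T' : TwoCyc v b c q m lam' ε W') (D : Disc v c n W ε r i0) (D' : Disc v c m W' ε r' j0)
    {x : K} {i j : ℕ} (hx : v (x - W i) ≤ r i) (hx' : v (x - W' j) ≤ r' j)
    (hr : r' j ≤ r i) : v (W' j ^ 2 - 1) ≤ v (W i ^ 2 - 1) := by
  have h1 := (D.key2 T hx).1
  have h2 := (D'.key2 T' hx').1
  rcases lt_trichotomy (v x) 1 with hlt | heq | hgt
  · have e : ∀ y : K, v y < 1 → v (y ^ 2 - 1) = 1 := by
      intro y hy
      rw [Valuation.map_sub_swap, v.map_sub_eq_of_lt_left, map_one]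
      rw [map_one, map_pow]
      exact pow_lt_one₀ zero_le hy two_ne_zero
    rw [e (W' j) (by rw [← h2]; exact hlt), e (W i) (by rw [← h1]; exact hlt)]
  · by_cases hn : v (W i ^ 2 - 1) < 1
    · have hi1 : v (W i) = 1 := by rw [← h1, heq]
      have hj1 : v (W' j) = 1 := by rw [← h2, heq]
      have hd : v (W' j - W i) ≤ r i := by
        have e : W' j - W i = (x - W i) - (x - W' j) := by ring
        rw [e]
        exact v.map_sub_le hx (hx'.trans hr)
      have hni := T.near i hi1 hn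
      have hnl := D.near_le i hi1 hn
      have hj : v (W' j - ε) ≤ v (W i - ε) := by
        have e : W' j - ε = (W' j - W i) + (W i - ε) := by ring
        rw [e]
        exact v.map_add_le (hd.trans hnl) le_rfl
      rw [dm_near v T.cz T.e2 hni, dm_near v T.cz T.e2 (lt_of_le_of_lt hj hni)]
      exact hj
    · refine le_trans ?_ (not_lt.1 hn)
      refine v.map_sub_le ?_ (v.map_one).le
      rw [map_pow, ← h2, heq, one_pow]
  · have e : ∀ y : K, 1 < v y → v (y ^ 2 - 1) = v y ^ 2 := by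
      intro y hy
      rw [v.map_sub_eq_of_lt_left, map_pow]
      rw [map_one, map_pow]
      exact one_lt_pow₀ hy two_ne_zero
    rw [e (W' j) (by rw [← h2]; exact hgt), e (W i) (by rw [← h1]; exact hgt), ← h1, ← h2]

theorem Disc.mono {r r' : ℕ → Γ} {i0 j0 : ℕ} (T : TwoCyc v b c q n lam ε W)
    (T' : TwoCyc v b c q m lam' ε W') (D : Disc v c n W ε r i0) (D' : Disc v c m W' ε r' j0)
    {x : K} {i j : ℕ} (hx : v (x - W i) ≤ r i) (hx' : v (x - W' j) ≤ r' j)
    (hr : r' j ≤ r i) : r' (j + 1) * r i ≤ r (i + 1) * r' j := by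
  have h1 := (D.key2 T hx).1
  have h2 := (D'.key2 T' hx').1
  have hu := Disc.u_mono v T T' D D' hx hx' hr
  have hWpos : 0 < v x := by
    rw [h1]
    exact zero_lt_iff.2 ((Valuation.ne_zero_iff v).2 (T.cyc.ne0 i))
  have e1 := D.recr i
  have e2 := D'.recr j
  rw [← h1] at e1
  rw [← h2] at e2
  refine le_of_mul_le_mul_right ?_ (pow_pos hWpos 2)
  calc r' (j + 1) * r i * v x ^ 2 = (r' (j + 1) * v x ^ 2) * r i := by ac_rfl
    _ = r' j * v (W' j ^ 2 - 1) * r i := by rw [e2]
    _ ≤ r' j * v (W i ^ 2 - 1) * r i := by gcongr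
    _ = (r i * v (W i ^ 2 - 1)) * r' j := by ac_rfl
    _ = (r (i + 1) * v x ^ 2) * r' j := by rw [e1]
    _ = r (i + 1) * r' j * v x ^ 2 := by ac_rfl

omit [LinearOrderedCommGroupWithZero Γ] in
theorem dm_perΓ {r : ℕ → Γ} (h : ∀ i, r (i + n) = r i) (i j : ℕ) : r (i + n * j) = r i := by
  induction j with
  | zero => rw [mul_zero, add_zero]
  | succ j ih => rw [mul_add, mul_one, ← add_assoc, h, ih]

/-- one half of `Disc.pair` -/
theorem Disc.pair_aux {r r' : ℕ → Γ} {i0 j0 : ℕ} (T : TwoCyc v b c q n lam ε W)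
    (T' : TwoCyc v b c q m lam' ε W') (D : Disc v c n W ε r i0) (D' : Disc v c m W' ε r' j0)
    (h0 : r' j0 ≤ r i0) : r' j0 = r i0 := by
  have hN : 0 < n * m := Nat.mul_pos T.cyc.npos T'.cyc.npos
  have h := dm_ratio (A := fun l => r' (j0 + l)) (B := fun l => r (i0 + l))
    (fun l => D'.pos _) (fun l => D.pos _) hN
    (fun l => by
      show r' (j0 + (l + n * m)) = r' (j0 + l)
      rw [← add_assoc, mul_comm n m, dm_perΓ D'.per])
    (fun l => by
      show r (i0 + (l + n * m)) = r (i0 + l)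
      rw [← add_assoc, dm_perΓ D.per])
    h0
    (fun l hl => Disc.mono v T T' D D' (D.follow v T l).2 (D'.follow v T' l).2 hl) 0
    (by
      show r (i0 + 0) ^ 2 * r' (j0 + 0 + 1) ≤ r (i0 + 0 + 1) * r' (j0 + 0) ^ 2
      rw [add_zero, add_zero]
      have e1 := D.recr i0
      have e2 := D'.recr j0
      rw [D.i0_one, one_pow, mul_one, dm_near v T.cz T.e2 (T.near _ D.i0_one D.i0_near),
        ← D.i0_eq] at e1
      rw [D'.i0_one, one_pow, mul_one, dm_near v T'.cz T'.e2 (T'.near _ D'.i0_one D'.i0_near),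
        ← D'.i0_eq] at e2
      rw [e1, e2, pow_two, pow_two])
  exact h

theorem Disc.pair_le {r r' : ℕ → Γ} {i0 j0 : ℕ} (T : TwoCyc v b c q n lam ε W)
    (T' : TwoCyc v b c q m lam' ε W') (D : Disc v c n W ε r i0) (D' : Disc v c m W' ε r' j0)
    (h0 : r' j0 ≤ r i0) (l : ℕ) : r' (j0 + l) ≤ r (i0 + l) := by
  induction l with
  | zero => exact h0
  | succ l ih =>
    have h1 := Disc.mono v T T' D D' (D.follow v T l).2 (D'.follow v T' l).2 ih
    by_contra hcon
    have h2 : r (i0 + (l + 1)) < r' (j0 + (l + 1)) := not_le.1 hcon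
    have h3 : r (i0 + (l + 1)) * r' (j0 + l) < r' (j0 + (l + 1)) * r (i0 + l) := by
      calc r (i0 + (l + 1)) * r' (j0 + l) < r' (j0 + (l + 1)) * r' (j0 + l) :=
            mul_lt_mul_of_pos_right h2 (D'.pos _)
        _ ≤ r' (j0 + (l + 1)) * r (i0 + l) := mul_le_mul' le_rfl ih
    exact absurd h1 (not_le.2 h3)

/-- two type II cycles have the same discs -/
theorem Disc.pair {r r' : ℕ → Γ} {i0 j0 : ℕ} (T : TwoCyc v b c q n lam ε W)
    (T' : TwoCyc v b c q m lam' ε W') (D : Disc v c n W ε r i0) (D' : Disc v c m W' ε r' j0)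
    (l : ℕ) : r (i0 + l) = r' (j0 + l) ∧ v (W (i0 + l) - W' (j0 + l)) ≤ r (i0 + l) := by
  have h0 : r i0 = r' j0 := by
    rcases le_total (r' j0) (r i0) with h | h
    · exact (Disc.pair_aux v T T' D D' h).symm
    · exact Disc.pair_aux v T' T D' D h
  have h1 : r (i0 + l) = r' (j0 + l) :=
    le_antisymm (Disc.pair_le v T' T D' D h0.le l) (Disc.pair_le v T T' D D' h0.ge l)
  refine ⟨h1, ?_⟩
  have e : W (i0 + l) - W' (j0 + l)
      = (crit b c ε l - W' (j0 + l)) - (crit b c ε l - W (i0 + l)) := by ring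
  rw [e]
  exact v.map_sub_le (by rw [h1]; exact (D'.follow v T' l).2) (D.follow v T l).2

/-- one half of `Disc.sep` -/
theorem Disc.sep_aux {r : ℕ → Γ} {i0 : ℕ} (T : TwoCyc v b c q n lam ε W)
    (D : Disc v c n W ε r i0) {i j : ℕ} (hij : v (W i - W j) ≤ r j) (hr : r i ≤ r j) :
    r i = r j := by
  have hn := T.cyc.npos
  -- the flow
  have hfl : ∀ l, v (W (i + l) - W (j + l)) ≤ r (j + l) := by
    intro l
    induction l with
    | zero => exact hij
    | succ l ih =>
      have h1 := (D.map v T ih).2.2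
      rw [← dm_step T.cyc] at h1
      exact h1
  have hself : ∀ i, v (W i - W i) ≤ r i := by
    intro i
    rw [sub_self, map_zero]
    exact zero_le
  obtain ⟨l0, hl0⟩ : ∃ l0, ∃ k, i + l0 = i0 + n * k := by
    refine ⟨i0 + n * i - i, i, ?_⟩
    have : i ≤ n * i := Nat.le_mul_of_pos_left i hn
    omega
  obtain ⟨k, hk⟩ := hl0
  have hWi : W (i + l0) = W i0 := by rw [hk, dm_per T.cyc]
  have hri : r (i + l0) = r i0 := by rw [hk, dm_perΓ D.per]
  refine dm_ratio (A := fun l => r (i + l)) (B := fun l => r (j + l))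
    (fun l => D.pos _) (fun l => D.pos _) hn
    (fun l => by
      show r (i + (l + n)) = r (i + l)
      rw [← add_assoc, D.per])
    (fun l => by
      show r (j + (l + n)) = r (j + l)
      rw [← add_assoc, D.per])
    hr
    (fun l hl => Disc.mono v T T D D (hfl l) (hself _) hl) l0 ?_
  show r (j + l0) ^ 2 * r (i + l0 + 1) ≤ r (j + l0 + 1) * r (i + l0) ^ 2
  have e1 := D.recr (i + l0)
  have e2 := D.recr (j + l0)
  have hv := (D.key2 T (hfl l0)).1
  rw [hWi] at hv
  have hj1 : v (W (j + l0)) = 1 := by rw [← hv, D.i0_one]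
  have hkey := (D.key T (j + l0)).1
  rw [hj1, mul_one] at hkey
  rw [hWi, D.i0_one, one_pow, mul_one, dm_near v T.cz T.e2 (T.near _ D.i0_one D.i0_near),
    ← D.i0_eq, hri] at e1
  rw [hj1, one_pow, mul_one] at e2
  rw [e1, e2, hri, ← pow_two]
  refine mul_le_mul' ?_ le_rfl
  rw [pow_two]
  exact mul_le_mul' le_rfl hkey

/-- intersecting discs have the same radius -/
theorem Disc.sep {r : ℕ → Γ} {i0 : ℕ} (T : TwoCyc v b c q n lam ε W)
    (D : Disc v c n W ε r i0) {i j : ℕ} (hij : v (W i - W j) ≤ max (r i) (r j)) :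
    r i = r j := by
  rcases le_total (r i) (r j) with h | h
  · rw [max_eq_right h] at hij
    exact D.sep_aux v T hij h
  · rw [max_eq_left h, Valuation.map_sub_swap] at hij
    exact (D.sep_aux v T hij h).symm

/-- two points of different cycles in the same disc -/
theorem Disc.cross {r r' : ℕ → Γ} {i0 j0 : ℕ} (T : TwoCyc v b c q n lam ε W)
    (T' : TwoCyc v b c q m lam' ε W') (D : Disc v c n W ε r i0) (D' : Disc v c m W' ε r' j0)
    (hne : ∀ i j, W i ≠ W' j) {s s' : ℕ} (h : v (W (i0 + s) - W' (j0 + s')) ≤ r (i0 + s)) :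
    v (W (i0 + s) * W' (j0 + s') - 1) = v (W (i0 + s) ^ 2 - 1) := by
  have hN : 0 < n * m := Nat.mul_pos T.cyc.npos T'.cyc.npos
  set i := i0 + s with hi
  set j := j0 + s' with hj
  have hfl : ∀ l, v (W' (j + l) - W (i + l)) ≤ r (i + l) := by
    intro l
    induction l with
    | zero =>
      rw [Valuation.map_sub_swap]
      exact h
    | succ l ih =>
      have h1 := (D.map v T ih).2.2
      rw [← dm_step T'.cyc] at h1
      exact h1
  have hpos : ∀ l, 0 < v (W' (j + l) - W (i + l)) := fun l =>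
    zero_lt_iff.2 ((Valuation.ne_zero_iff v).2 (sub_ne_zero.2 (hne _ _).symm))
  have hk := fun l => D.key2 T (hfl l)
  have hWpos : ∀ l, 0 < v (W (i + l)) := fun l =>
    zero_lt_iff.2 ((Valuation.ne_zero_iff v).2 (T.cyc.ne0 _))
  have hd : ∀ l, v (W' (j + (l + 1)) - W (i + (l + 1))) * v (W (i + l)) ^ 2
      = v (W' (j + l) - W (i + l)) * v (W' (j + l) * W (i + l) - 1) := by
    intro l
    have e : W' (j + (l + 1)) - W (i + (l + 1)) = (W' (j + l) - W (i + l))
        * (W' (j + l) * W (i + l) - 1) / (W' (j + l) * W (i + l)) / b := by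
      rw [← add_assoc, ← add_assoc, dm_step T'.cyc, dm_step T.cyc,
        dm_diff (T'.cyc.ne0 _) (T.cyc.ne0 _)]
    rw [e, map_div₀, map_div₀, T.ctx.vb, div_one, map_mul, map_mul v (W' (j + l)) (W (i + l)),
      (hk l).1, ← pow_two, div_mul_cancel₀ _ (pow_pos (hWpos l) 2).ne']
  have hm : ∀ l, v (W' (j + (l + 1)) - W (i + (l + 1))) * r (i + l)
      ≤ r (i + (l + 1)) * v (W' (j + l) - W (i + l)) := by
    intro l
    refine le_of_mul_le_mul_right ?_ (pow_pos (hWpos l) 2)
    calc v (W' (j + (l + 1)) - W (i + (l + 1))) * r (i + l) * v (W (i + l)) ^ 2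
        = (v (W' (j + (l + 1)) - W (i + (l + 1))) * v (W (i + l)) ^ 2) * r (i + l) := by ac_rfl
      _ = (v (W' (j + l) - W (i + l)) * v (W' (j + l) * W (i + l) - 1)) * r (i + l) := by
          rw [hd]
      _ ≤ (v (W' (j + l) - W (i + l)) * v (W (i + l) ^ 2 - 1)) * r (i + l) := by
          gcongr
          exact (hk l).2
      _ = (r (i + l) * v (W (i + l) ^ 2 - 1)) * v (W' (j + l) - W (i + l)) := by ac_rfl
      _ = (r (i + (l + 1)) * v (W (i + l)) ^ 2) * v (W' (j + l) - W (i + l)) := by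
          rw [← add_assoc, D.recr]
      _ = r (i + (l + 1)) * v (W' (j + l) - W (i + l)) * v (W (i + l)) ^ 2 := by ac_rfl
  have hc := dm_chain (A := fun l => v (W' (j + l) - W (i + l))) (B := fun l => r (i + l))
    hpos (fun l => D.pos _) hm 1 (n * m - 1)
  have e3 : 1 + (n * m - 1) = n * m := by omega
  have hc' : v (W' (j + n * m) - W (i + n * m)) * r (i + 1)
      ≤ r (i + n * m) * v (W' (j + 1) - W (i + 1)) := by
    have := hc
    simp only [e3] at this
    exact this
  rw [dm_perΓ D.per, dm_per T.cyc, mul_comm n m, dm_per T'.cyc] at hc'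
  -- equality at the first step
  have h1 : v (W' (j + 1) - W (i + 1)) * r i = r (i + 1) * v (W' j - W i) := by
    refine le_antisymm (hm 0) ?_
    calc r (i + 1) * v (W' j - W i) = v (W' j - W i) * r (i + 1) := mul_comm _ _
      _ ≤ r i * v (W' (j + 1) - W (i + 1)) := hc'
      _ = v (W' (j + 1) - W (i + 1)) * r i := mul_comm _ _
  have h2 : v (W' j - W i) * v (W' j * W i - 1) * r i
      = r i * v (W i ^ 2 - 1) * v (W' j - W i) := by
    have h3 := hd 0
    have h4 := D.recr i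
    simp only [add_zero, zero_add] at h3
    rw [← h3, ← h4]
    calc v (W' (j + 1) - W (i + 1)) * v (W i) ^ 2 * r i
        = (v (W' (j + 1) - W (i + 1)) * r i) * v (W i) ^ 2 := by ac_rfl
      _ = (r (i + 1) * v (W' j - W i)) * v (W i) ^ 2 := by rw [h1]
      _ = r (i + 1) * v (W i) ^ 2 * v (W' j - W i) := by ac_rfl
  have hp0 : v (W' j - W i) ≠ 0 := (hpos 0).ne'
  have hr0 : r i ≠ 0 := (D.pos i).ne'
  have h5 : v (W' j * W i - 1) * (v (W' j - W i) * r i)
      = v (W i ^ 2 - 1) * (v (W' j - W i) * r i) := by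
    calc v (W' j * W i - 1) * (v (W' j - W i) * r i)
        = v (W' j - W i) * v (W' j * W i - 1) * r i := by ac_rfl
      _ = r i * v (W i ^ 2 - 1) * v (W' j - W i) := h2
      _ = v (W i ^ 2 - 1) * (v (W' j - W i) * r i) := by ac_rfl
  have h6 := mul_right_cancel₀ (mul_ne_zero hp0 hr0) h5
  rw [mul_comm (W i) (W' j)]
  exact h6

end D1

end Pool.Agent.helper56.P3
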